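import Pool.Agent.Helper894.Five.Data

set_option autoImplicit false

namespace Pool.Agent.Helper894.Five

theorem blk_0 : allUpto (chk (ent vt) (ent lt) 78125 15625 1000000 287988 1508919 1105375 809754 593194) 12 0 = true := by
  decide +kernel

theorem blk_1 : allUpto (chk (ent vt) (ent lt) 78125 15625 1000000 287988 1508919 1105375 809754 593194) 12 4096 = true := by
  decide +kernel

theorem blk_2 : allUpto (chk (ent vt) (ent lt) 78125 15625 1000000 287988 1508919 1105375 809754 593194) 12 8192 = true := by
  decide +kernel

theorem blk_3 : allUpto (chk (ent vt) (ent lt) 78125 15625 1000000 287988 1508919 1105375 809754 593194) 12 12288 = true := by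
  decide +kernel

theorem blk_4 : allUpto (chk (ent vt) (ent lt) 78125 15625 1000000 287988 1508919 1105375 809754 593194) 12 16384 = true := by
  decide +kernel

theorem blk_5 : allUpto (chk (ent vt) (ent lt) 78125 15625 1000000 287988 1508919 1105375 809754 593194) 12 20480 = true := by
  decide +kernel

theorem blk_6 : allUpto (chk (ent vt) (ent lt) 78125 15625 1000000 287988 1508919 1105375 809754 593194) 12 24576 = true := by
  decide +kernel

theorem blk_7 : allUpto (chk (ent vt) (ent lt) 78125 15625 1000000 287988 1508919 1105375 809754 593194) 12 28672 = true := by
  decide +kernel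

theorem blk_8 : allUpto (chk (ent vt) (ent lt) 78125 15625 1000000 287988 1508919 1105375 809754 593194) 12 32768 = true := by
  decide +kernel

theorem blk_9 : allUpto (chk (ent vt) (ent lt) 78125 15625 1000000 287988 1508919 1105375 809754 593194) 12 36864 = true := by
  decide +kernel

end Pool.Agent.Helper894.Five
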