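import Pool.Agent.Helper894.Five.Data

set_option autoImplicit false

namespace Pool.Agent.Helper894.Five

theorem blk_10 : allUpto (chk (ent vt) (ent lt) 78125 15625 1000000 287988 1508919 1105375 809754 593194) 12 40960 = true := by
  decide +kernel

theorem blk_11 : allUpto (chk (ent vt) (ent lt) 78125 15625 1000000 287988 1508919 1105375 809754 593194) 12 45056 = true := by
  decide +kernel

theorem blk_12 : allUpto (chk (ent vt) (ent lt) 78125 15625 1000000 287988 1508919 1105375 809754 593194) 12 49152 = true := by
  decide +kernel

theorem blk_13 : allUpto (chk (ent vt) (ent lt) 78125 15625 1000000 287988 1508919 1105375 809754 593194) 12 53248 = true := by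
  decide +kernel

theorem blk_14 : allUpto (chk (ent vt) (ent lt) 78125 15625 1000000 287988 1508919 1105375 809754 593194) 12 57344 = true := by
  decide +kernel

theorem blk_15 : allUpto (chk (ent vt) (ent lt) 78125 15625 1000000 287988 1508919 1105375 809754 593194) 12 61440 = true := by
  decide +kernel

theorem blk_16 : allUpto (chk (ent vt) (ent lt) 78125 15625 1000000 287988 1508919 1105375 809754 593194) 12 65536 = true := by
  decide +kernel

theorem blk_17 : allUpto (chk (ent vt) (ent lt) 78125 15625 1000000 287988 1508919 1105375 809754 593194) 12 69632 = true := by
  decide +kernel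

theorem blk_18 : allUpto (chk (ent vt) (ent lt) 78125 15625 1000000 287988 1508919 1105375 809754 593194) 12 73728 = true := by
  decide +kernel

theorem blk_19 : allUpto (chk (ent vt) (ent lt) 78125 15625 1000000 287988 1508919 1105375 809754 593194) 12 77824 = true := by
  decide +kernel

end Pool.Agent.Helper894.Five
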