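import Mathlib

set_option autoImplicit false

namespace Pool.Agent.Helper894.Five

/-- binary trees of numerals -/
inductive Tr : Type
  | lf : ℕ → Tr
  | nd : Tr → Tr → Tr

/-- look up by binary digits, least significant digit first -/
noncomputable def Tr.get (T : Tr) : ℕ → ℕ :=
  Tr.rec (motive := fun _ => ℕ → ℕ) (fun n _ => n)
    (fun _ _ gl gr i => Bool.rec (gr (Nat.div i 2)) (gl (Nat.div i 2)) (Nat.beq (Nat.mod i 2) 0)) T

/-- entry of a packed table with `2 ^ 12` entries of 16 bits in each leaf -/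
noncomputable def ent (T : Tr) (i : ℕ) : ℕ :=
  Nat.mod (Nat.shiftRight (T.get (Nat.div i 4096)) (Nat.mul 16 (Nat.mod i 4096))) 65536

/-- the second term of the certificate inequality -/
noncomputable def term (L : ℕ → ℕ) (N' b0 b1 b2 b3 u : ℕ) (r : ℕ) : ℕ :=
  Nat.rec (Nat.mul b3 (L (Nat.mod (Nat.add (Nat.mul 16 u) 1) N')))
   (fun r _ => Nat.rec (Nat.mul b0 (L (Nat.mod (Nat.mul 2 u) N')))
    (fun r _ => Nat.rec 0
     (fun r _ => Nat.rec (Nat.mul b2 (L (Nat.mod (Nat.add (Nat.mul 8 u) 5) N')))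
      (fun _ _ => Nat.mul b1 (L (Nat.mod (Nat.add (Nat.mul 4 u) 3) N'))) r) r) r) r

/-- the check at one index -/
noncomputable def chk (v L : ℕ → ℕ) (N N' Q a4 b0 b1 b2 b3 t : ℕ) : Bool :=
  Bool.rec
    (Bool.rec false
      (Bool.rec false
        (Nat.ble (Nat.mul Q (v t)) (Nat.add (Nat.mul a4 (v (Nat.mod (Nat.add (Nat.mul 16 t) 9) N)))
          (term L N' b0 b1 b2 b3 (Nat.div t 5) (Nat.mod t 5))))
        (Nat.ble (L (Nat.mod t N')) (v t)))
      (Nat.ble 1 (v t))) true (Nat.ble N t)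

/-- check all of `[lo, lo + 2 ^ k)` -/
noncomputable def allUpto (f : ℕ → Bool) (k : ℕ) : ℕ → Bool :=
  Nat.rec (motive := fun _ => ℕ → Bool) (fun lo => f lo)
    (fun k ih lo => Bool.rec false (ih (Nat.add lo (Nat.pow 2 k))) (ih lo)) k

theorem allUpto_spec (f : ℕ → Bool) (k lo : ℕ) (h : allUpto f k lo = true) :
    ∀ t, lo ≤ t → t < lo + 2 ^ k → f t = true := by
  induction k generalizing lo with
  | zero =>
    intro t h1 h2
    have : t = lo := by simp at h2; omega
    rw [this]; exact h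
  | succ k ih =>
    have h' : (Bool.rec false (allUpto f k (lo + 2 ^ k)) (allUpto f k lo) : Bool) = true := h
    cases h3 : allUpto f k lo with
    | false => rw [h3] at h'; exact absurd h' (by simp)
    | true =>
      rw [h3] at h'
      intro t h1 h2
      rw [pow_succ] at h2
      rcases Nat.lt_or_ge t (lo + 2 ^ k) with h4 | h4
      · exact ih lo h3 t h1 h4
      · exact ih _ h' t h4 (by omega)

theorem chk_spec {v L : ℕ → ℕ} {N N' Q a4 b0 b1 b2 b3 t : ℕ}
    (h : chk v L N N' Q a4 b0 b1 b2 b3 t = true) (ht : t < N) :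
    1 ≤ v t ∧ L (t % N') ≤ v t ∧
      Q * v t ≤ a4 * v ((16 * t + 9) % N) + term L N' b0 b1 b2 b3 (t / 5) (t % 5) := by
  have h0 : Nat.ble N t = false := by
    rw [Bool.eq_false_iff]
    intro h
    have := Nat.le_of_ble_eq_true h
    omega
  unfold chk at h
  rw [h0] at h
  cases h1 : Nat.ble 1 (v t) with
  | false => rw [h1] at h; exact absurd h (by simp)
  | true =>
    rw [h1] at h
    cases h2 : Nat.ble (L (Nat.mod t N')) (v t) with
    | false => rw [h2] at h; exact absurd h (by simp)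
    | true =>
      rw [h2] at h
      exact ⟨Nat.le_of_ble_eq_true h1, Nat.le_of_ble_eq_true h2, Nat.le_of_ble_eq_true h⟩

end Pool.Agent.Helper894.Five
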