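import Pool.Agent.Helper894.Five.Blk0
import Pool.Agent.Helper894.Five.Blk1
import Pool.Agent.Helper894.Five.Main

set_option autoImplicit false

namespace Pool.Agent.Helper894.Five

theorem chk_all (t : ℕ) (ht : t < 78125) :
    chk (ent vt) (ent lt) 78125 15625 1000000 287988 1508919 1105375 809754 593194 t = true := by
  have h : t / 4096 < 20 := by omega
  obtain ⟨i, hi⟩ : ∃ i, i = t / 4096 := ⟨_, rfl⟩
  rw [← hi] at h
  interval_cases i
  · exact allUpto_spec _ _ _ blk_0 t (by omega) (by norm_num; omega)
  · exact allUpto_spec _ _ _ blk_1 t (by omega) (by norm_num; omega)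
  · exact allUpto_spec _ _ _ blk_2 t (by omega) (by norm_num; omega)
  · exact allUpto_spec _ _ _ blk_3 t (by omega) (by norm_num; omega)
  · exact allUpto_spec _ _ _ blk_4 t (by omega) (by norm_num; omega)
  · exact allUpto_spec _ _ _ blk_5 t (by omega) (by norm_num; omega)
  · exact allUpto_spec _ _ _ blk_6 t (by omega) (by norm_num; omega)
  · exact allUpto_spec _ _ _ blk_7 t (by omega) (by norm_num; omega)
  · exact allUpto_spec _ _ _ blk_8 t (by omega) (by norm_num; omega)
  · exact allUpto_spec _ _ _ blk_9 t (by omega) (by norm_num; omega)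
  · exact allUpto_spec _ _ _ blk_10 t (by omega) (by norm_num; omega)
  · exact allUpto_spec _ _ _ blk_11 t (by omega) (by norm_num; omega)
  · exact allUpto_spec _ _ _ blk_12 t (by omega) (by norm_num; omega)
  · exact allUpto_spec _ _ _ blk_13 t (by omega) (by norm_num; omega)
  · exact allUpto_spec _ _ _ blk_14 t (by omega) (by norm_num; omega)
  · exact allUpto_spec _ _ _ blk_15 t (by omega) (by norm_num; omega)
  · exact allUpto_spec _ _ _ blk_16 t (by omega) (by norm_num; omega)
  · exact allUpto_spec _ _ _ blk_17 t (by omega) (by norm_num; omega)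
  · exact allUpto_spec _ _ _ blk_18 t (by omega) (by norm_num; omega)
  · exact allUpto_spec _ _ _ blk_19 t (by omega) (by norm_num; omega)

theorem ent_lt (T : Tr) (i : ℕ) : ent T i ≤ 65535 := by
  have h : ent T i < 65536 := Nat.mod_lt _ (by norm_num)
  omega

theorem cert : Cert (ent vt) (ent lt) where
  pos t ht := (chk_spec (chk_all t ht) ht).1
  bound t := ent_lt vt t
  lift t ht := (chk_spec (chk_all t ht) ht).2.1
  ineq t ht := (chk_spec (chk_all t ht) ht).2.2

end Pool.Agent.Helper894.Five
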