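import Pool.Agent.Helper894.Five.Cert

set_option autoImplicit false

namespace Pool.Agent.Helper894.Five

open Filter

theorem T_eq : (fun m : ℤ => if m % 2 = 0 then m / 2 else (5 * m + 1) / 2) = T := rfl

theorem log_form {c : ℝ → ℕ} (h : ∀ᶠ x : ℝ in atTop, x ^ (0.448 : ℝ) ≤ (c x : ℝ)) :
    ∀ᶠ x : ℝ in atTop, 0.448 ≤ Real.log (c x : ℝ) / Real.log x := by
  filter_upwards [h, eventually_gt_atTop (1 : ℝ)] with x h1 h2
  have hl : 0 < Real.log x := Real.log_pos h2
  rw [le_div_iff₀ hl, ← Real.log_rpow (by linarith)]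
  exact Real.log_le_log (by positivity) h1

theorem main_all {a : ℤ} (ha : ¬ (5 : ℤ) ∣ a) :
    ∀ᶠ x : ℝ in atTop, x ^ (0.448 : ℝ) ≤ ((DX a x).ncard : ℝ) := growth_log cert ha

/-- positive integers stay positive, the others never become positive -/
theorem T_pos {m : ℤ} : 1 ≤ T m ↔ 1 ≤ m := by
  unfold T
  split_ifs <;> omega

theorem iter_pos {m : ℤ} (k : ℕ) : 1 ≤ T^[k] m ↔ 1 ≤ m := by
  induction k generalizing m with
  | zero => simp
  | succ k ih => rw [Function.iterate_succ_apply, ih, T_pos]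

theorem pos_of_desc_one {x : ℤ} (h : x ∈ Desc 1) : 1 ≤ x := by
  obtain ⟨k, hk⟩ := h
  rw [← iter_pos k, hk]

theorem DX_one (x : ℝ) : DX 1 x = {n : ℤ | 1 ≤ n ∧ (n : ℝ) ≤ x ∧ ∃ k : ℕ, T^[k] n = 1} := by
  ext n
  constructor
  · rintro ⟨h1, h2⟩
    exact ⟨pos_of_desc_one h1, (le_abs_self _).trans h2, h1⟩
  · rintro ⟨h1, h2, h3⟩
    refine ⟨h3, ?_⟩
    rw [abs_of_nonneg (by exact_mod_cast (by omega : (0 : ℤ) ≤ n))]
    exact h2

theorem finite_orbit_of_hits {n : ℤ} (h : ∃ k : ℕ, T^[k] n = 1) :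
    (Set.range fun k : ℕ => T^[k] n).Finite := by
  obtain ⟨k, hk⟩ := h
  have h5 : T^[5] 1 = 1 := by decide
  have hmul : ∀ m : ℕ, T^[m * 5] 1 = 1 := by
    intro m
    induction m with
    | zero => simp
    | succ m ih => rw [Nat.succ_mul, Function.iterate_add_apply, h5, ih]
  have hfin : ((Finset.range (k + 6)).image (fun k => T^[k] n) : Set ℤ).Finite :=
    Finset.finite_toSet _
  apply hfin.subset
  rintro _ ⟨i, rfl⟩
  rw [Finset.mem_coe, Finset.mem_image]
  rcases Nat.lt_or_ge i k with h1 | h1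
  · exact ⟨i, Finset.mem_range.2 (by omega), rfl⟩
  · refine ⟨k + (i - k) % 5, Finset.mem_range.2 (by omega), ?_⟩
    show T^[k + (i - k) % 5] n = T^[i] n
    have e1 : T^[i] n = T^[(i - k) % 5] 1 := by
      have h2 : i = (i - k) % 5 + (i - k) / 5 * 5 + k := by omega
      rw [h2, Function.iterate_add_apply, hk, Function.iterate_add_apply, hmul, ← h2]
    rw [e1, Nat.add_comm, Function.iterate_add_apply, hk]

end Pool.Agent.Helper894.Five
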