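import Mathlib

set_option autoImplicit false

namespace Pool.Agent.Helper894.Five

/-- the 5x+1 map -/
def T (m : ℤ) : ℤ := if m % 2 = 0 then m / 2 else (5 * m + 1) / 2

/-- integers whose forward orbit contains `n` -/
def Desc (n : ℤ) : Set ℤ := {x | ∃ k : ℕ, T^[k] x = n}

theorem T_two_mul (m : ℤ) : T (2 * m) = m := by
  unfold T
  rw [if_pos (by omega)]
  omega

theorem T_odd (t : ℤ) : T (2 * t + 1) = 5 * t + 3 := by
  unfold T
  rw [if_neg (by omega)]
  omega

theorem T_pow (e : ℕ) (m : ℤ) : T^[e] (2 ^ e * m) = m := by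
  induction e generalizing m with
  | zero => simp
  | succ e ih =>
    rw [Function.iterate_succ_apply, pow_succ', mul_assoc, T_two_mul, ih]

theorem desc_trans {a b c : ℤ} (h1 : a ∈ Desc b) (h2 : b ∈ Desc c) : a ∈ Desc c := by
  obtain ⟨k, hk⟩ := h1
  obtain ⟨l, hl⟩ := h2
  exact ⟨l + k, by rw [Function.iterate_add_apply, hk, hl]⟩

theorem desc_self (a : ℤ) : a ∈ Desc a := ⟨0, rfl⟩

/-- not a periodic point -/
def NP (n : ℤ) : Prop := ∀ p : ℕ, 1 ≤ p → T^[p] n ≠ n

theorem NP.time {n x : ℤ} (h : NP n) {p q : ℕ} (hp : T^[p] x = n) (hq : T^[q] x = n) : p = q := by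
  by_contra hne
  rcases lt_or_gt_of_ne hne with h1 | h1
  · apply h (q - p) (by omega)
    have h2 : q = (q - p) + p := by omega
    rw [h2, Function.iterate_add_apply, hp] at hq
    exact hq
  · apply h (p - q) (by omega)
    have h2 : p = (p - q) + q := by omega
    rw [h2, Function.iterate_add_apply, hq] at hp
    exact hp

theorem NP.of_iterate {n c : ℤ} {j : ℕ} (h : NP n) (hc : T^[j] c = n) : NP c := by
  intro p hp hpc
  apply h p hp
  rw [← hc, ← Function.iterate_add_apply, Nat.add_comm, Function.iterate_add_apply, hpc]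

/-- the doubling child -/
theorem iter_c1 (n : ℤ) : T^[4] (16 * n) = n := by
  have := T_pow 4 n
  norm_num at this
  exact this

theorem iter_c1' (n : ℤ) : T^[3] (16 * n) = 2 * n := by
  have := T_pow 3 (2 * n)
  rw [← this]
  congr 1
  ring

/-- the other child -/
theorem iter_c2 (t : ℤ) (e : ℕ) : T^[e + 1] (2 ^ e * (2 * t + 1)) = 5 * t + 3 := by
  rw [Nat.add_comm, Function.iterate_add_apply, T_pow]
  exact T_odd t

theorem c1_notMem {n : ℤ} (h : NP n) : n ∉ Desc (16 * n) := by
  rintro ⟨k, hk⟩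
  apply h (4 + k) (by omega)
  rw [Function.iterate_add_apply, hk, iter_c1]

theorem c2_notMem {t : ℤ} (h : NP (5 * t + 3)) (e : ℕ) :
    5 * t + 3 ∉ Desc (2 ^ e * (2 * t + 1)) := by
  rintro ⟨k, hk⟩
  apply h ((e + 1) + k) (by omega)
  rw [Function.iterate_add_apply, hk, iter_c2]

theorem disj {t : ℤ} (h : NP (5 * t + 3)) (e : ℕ) :
    Disjoint (Desc (16 * (5 * t + 3))) (Desc (2 ^ e * (2 * t + 1))) := by
  rw [Set.disjoint_left]
  rintro x ⟨j, hj⟩ ⟨i, hi⟩
  have h1 : T^[3 + j] x = 2 * (5 * t + 3) := by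
    rw [Function.iterate_add_apply, hj, iter_c1']
  have h2 : T^[e + i] x = 2 * t + 1 := by
    rw [Function.iterate_add_apply, hi, T_pow]
  have h3 : T^[1 + (3 + j)] x = 5 * t + 3 := by
    rw [Function.iterate_add_apply, h1]
    exact T_two_mul _
  have h4 : T^[1 + (e + i)] x = 5 * t + 3 := by
    rw [Function.iterate_add_apply, h2]
    exact T_odd t
  have h5 := h.time h3 h4
  have h6 : 3 + j = e + i := by omega
  rw [h6, h2] at h1
  omega

theorem desc_c1 (n : ℤ) : Desc (16 * n) ⊆ Desc n := fun _ hx =>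
  desc_trans hx ⟨4, iter_c1 n⟩

theorem desc_c2 (t : ℤ) (e : ℕ) : Desc (2 ^ e * (2 * t + 1)) ⊆ Desc (5 * t + 3) := fun _ hx =>
  desc_trans hx ⟨e + 1, iter_c2 t e⟩

/-- members of `Desc n` of absolute value at most `X` -/
def DX (n : ℤ) (X : ℝ) : Set ℤ := {x | x ∈ Desc n ∧ |(x : ℝ)| ≤ X}

theorem DX_finite (n : ℤ) (X : ℝ) : (DX n X).Finite := by
  apply (Set.finite_Icc (-⌈X⌉) ⌈X⌉).subset
  rintro x ⟨-, hx⟩
  rw [abs_le] at hx
  have h1 := Int.le_ceil X
  rw [Set.mem_Icc]
  constructor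
  · have : (-(⌈X⌉ : ℝ)) ≤ (x : ℝ) := by linarith
    exact_mod_cast this
  · have : (x : ℝ) ≤ (⌈X⌉ : ℝ) := by linarith
    exact_mod_cast this

theorem card_lt {n : ℤ} {X : ℝ} (hn : |(n : ℝ)| ≤ X) {S : Set ℤ} (hS : S ⊆ DX n X) (hnS : n ∉ S) :
    S.ncard < (DX n X).ncard := by
  apply Set.ncard_lt_ncard _ (DX_finite n X)
  refine ⟨hS, fun h => hnS (h ⟨desc_self n, hn⟩)⟩

/-- The mass argument: a function `f` which is at most the sum of its values on the children is
bounded by the number of descendants. -/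
theorem mass (f : ℤ → ℝ) (X K : ℝ) (A0 : ℤ) (hK : 0 ≤ K)
    (hbig : ∀ n : ℤ, X < |(n : ℝ)| → f n ≤ K)
    (hsub : ∀ t : ℤ, A0 ≤ |5 * t + 3| → f (5 * t + 3) ≤ f (16 * (5 * t + 3)) ∨
      ∃ e : ℕ, e ≤ 3 ∧ (2 ^ e * (2 * t + 1)) % 5 = 3 ∧
        f (5 * t + 3) ≤ f (16 * (5 * t + 3)) + f (2 ^ e * (2 * t + 1)))
    (N : ℕ) :
    ∀ n : ℤ, n % 5 = 3 → NP n → (∀ x ∈ Desc n, A0 ≤ |x|) → |(n : ℝ)| ≤ 16 * X →
      (DX n (16 * X)).ncard ≤ N → f n ≤ K * (DX n (16 * X)).ncard := by
  induction N with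
  | zero =>
    intro n _ _ _ hn hN
    exfalso
    have h1 := card_lt (S := ∅) hn (Set.empty_subset _) (by simp)
    omega
  | succ N ih =>
    intro n hn5 hnp hsmall hn hN
    have hpos : 1 ≤ (DX n (16 * X)).ncard := by
      have h1 := card_lt (S := ∅) hn (Set.empty_subset _) (by simp)
      omega
    have hposR : (1 : ℝ) ≤ ((DX n (16 * X)).ncard : ℝ) := by exact_mod_cast hpos
    rcases lt_or_ge X |(n : ℝ)| with hX1 | hX1
    · calc f n ≤ K := hbig n hX1
        _ ≤ K * (DX n (16 * X)).ncard := le_mul_of_one_le_right hK hposR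
    · obtain ⟨t, rfl⟩ : ∃ t, n = 5 * t + 3 := ⟨n / 5, by omega⟩
      have hsm := hsmall _ (desc_self _)
      have hc1 : f (16 * (5 * t + 3)) ≤ K * (DX (16 * (5 * t + 3)) (16 * X)).ncard := by
        have hlt : (DX (16 * (5 * t + 3)) (16 * X)).ncard < (DX (5 * t + 3) (16 * X)).ncard := by
          apply card_lt hn
          · rintro x ⟨h1, h2⟩
            exact ⟨desc_c1 _ h1, h2⟩
          · rintro ⟨h1, -⟩
            exact c1_notMem hnp h1
        apply ih _ (by omega) (hnp.of_iterate (iter_c1 _))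
          (fun x hx => hsmall x (desc_c1 _ hx)) _ (by omega)
        have : ((16 * (5 * t + 3) : ℤ) : ℝ) = 16 * ((5 * t + 3 : ℤ) : ℝ) := by push_cast; ring
        rw [this, abs_mul, abs_of_pos (by norm_num : (0 : ℝ) < 16)]
        linarith
      rcases hsub t hsm with h1 | ⟨e, he, he5, h1⟩
      · have hle : (DX (16 * (5 * t + 3)) (16 * X)).ncard ≤ (DX (5 * t + 3) (16 * X)).ncard := by
          apply Set.ncard_le_ncard _ (DX_finite _ _)
          rintro x ⟨h1, h2⟩
          exact ⟨desc_c1 _ h1, h2⟩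
        calc f (5 * t + 3) ≤ f (16 * (5 * t + 3)) := h1
          _ ≤ K * (DX (16 * (5 * t + 3)) (16 * X)).ncard := hc1
          _ ≤ K * (DX (5 * t + 3) (16 * X)).ncard := by
            apply mul_le_mul_of_nonneg_left _ hK
            exact_mod_cast hle
      · have hc2 : f (2 ^ e * (2 * t + 1)) ≤ K * (DX (2 ^ e * (2 * t + 1)) (16 * X)).ncard := by
          have hlt : (DX (2 ^ e * (2 * t + 1)) (16 * X)).ncard <
              (DX (5 * t + 3) (16 * X)).ncard := by
            apply card_lt hn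
            · rintro x ⟨h1, h2⟩
              exact ⟨desc_c2 _ _ h1, h2⟩
            · rintro ⟨h1, -⟩
              exact c2_notMem hnp e h1
          apply ih _ he5 (hnp.of_iterate (iter_c2 t e))
            (fun x hx => hsmall x (desc_c2 _ _ hx)) _ (by omega)
          have h8 : (2 : ℤ) ^ e ≤ 8 := by
            calc (2 : ℤ) ^ e ≤ 2 ^ 3 := pow_le_pow_right₀ (by norm_num) he
              _ = 8 := by norm_num
          have h9 : |2 ^ e * (2 * t + 1)| ≤ 16 * |5 * t + 3| := by
            rw [abs_mul, abs_of_pos (by positivity : (0 : ℤ) < 2 ^ e)]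
            have h10 : |2 * t + 1| ≤ 2 * |5 * t + 3| := by
              rw [abs_le]
              have h11 := le_abs_self (5 * t + 3)
              have h12 := neg_abs_le (5 * t + 3)
              constructor <;> omega
            calc 2 ^ e * |2 * t + 1| ≤ 8 * (2 * |5 * t + 3|) :=
                  mul_le_mul h8 h10 (abs_nonneg _) (by norm_num)
              _ = 16 * |5 * t + 3| := by ring
          have h13 : |((2 ^ e * (2 * t + 1) : ℤ) : ℝ)| ≤ 16 * |((5 * t + 3 : ℤ) : ℝ)| := by
            rw [← Int.cast_abs, ← Int.cast_abs]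
            exact_mod_cast h9
          linarith
        have hle : (DX (16 * (5 * t + 3)) (16 * X)).ncard +
            (DX (2 ^ e * (2 * t + 1)) (16 * X)).ncard ≤ (DX (5 * t + 3) (16 * X)).ncard := by
          rw [← Set.ncard_union_eq _ (DX_finite _ _) (DX_finite _ _)]
          · apply Set.ncard_le_ncard _ (DX_finite _ _)
            rintro x (⟨h1, h2⟩ | ⟨h1, h2⟩)
            · exact ⟨desc_c1 _ h1, h2⟩
            · exact ⟨desc_c2 _ _ h1, h2⟩
          · have := disj hnp e
            rw [Set.disjoint_left] at this ⊢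
            rintro x ⟨h1, -⟩ ⟨h2, -⟩
            exact this h1 h2
        have hleR : ((DX (16 * (5 * t + 3)) (16 * X)).ncard : ℝ) +
            (DX (2 ^ e * (2 * t + 1)) (16 * X)).ncard ≤ (DX (5 * t + 3) (16 * X)).ncard := by
          exact_mod_cast hle
        calc f (5 * t + 3) ≤ f (16 * (5 * t + 3)) + f (2 ^ e * (2 * t + 1)) := h1
          _ ≤ K * (DX (16 * (5 * t + 3)) (16 * X)).ncard +
              K * (DX (2 ^ e * (2 * t + 1)) (16 * X)).ncard := add_le_add hc1 hc2
          _ = K * ((DX (16 * (5 * t + 3)) (16 * X)).ncard +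
              (DX (2 ^ e * (2 * t + 1)) (16 * X)).ncard) := by ring
          _ ≤ K * (DX (5 * t + 3) (16 * X)).ncard := mul_le_mul_of_nonneg_left hleR hK

/-- orbits hit only finitely many `2 ^ j * a` -/
theorem hits_finite {a : ℤ} (ha : a ≠ 0) (x : ℤ) : {j : ℕ | x ∈ Desc (2 ^ j * a)}.Finite := by
  by_contra hinf
  have hinj : Function.Injective (fun j : ℕ => 2 ^ j * a) := by
    intro i j hij
    have := mul_right_cancel₀ ha hij
    exact Nat.pow_right_injective (le_refl 2) (by exact_mod_cast this)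
  -- the orbit of x is infinite
  have horb : ¬ (Set.range (fun k : ℕ => T^[k] x)).Finite := by
    intro hfin
    apply hinf
    apply Set.Finite.of_finite_image (f := fun j : ℕ => 2 ^ j * a) _ hinj.injOn
    apply hfin.subset
    rintro _ ⟨j, ⟨k, hk⟩, rfl⟩
    exact ⟨k, hk⟩
  -- pick a hitting time of a, then later hits
  obtain ⟨j0, hj0⟩ : {j : ℕ | x ∈ Desc (2 ^ j * a)}.Nonempty := by
    by_contra h
    rw [Set.not_nonempty_iff_eq_empty] at h
    rw [h] at hinf
    exact hinf Set.finite_empty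
  obtain ⟨k0, hk0⟩ := hj0
  have hτ : T^[j0 + k0] x = a := by
    rw [Function.iterate_add_apply, hk0, T_pow]
  -- some hit happens after time j0 + k0 with positive exponent
  have hlate : ∃ j k, 1 ≤ j ∧ T^[k] a = 2 ^ j * a := by
    by_contra hcon
    push Not at hcon
    apply hinf
    apply Set.Finite.of_finite_image (f := fun j : ℕ => 2 ^ j * a) _ hinj.injOn
    have hfin2 : ((Finset.range (j0 + k0 + 1)).image (fun k => T^[k] x) : Set ℤ).Finite :=
      Finset.finite_toSet _
    apply hfin2.subset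
    rintro _ ⟨j, ⟨k, hk⟩, rfl⟩
    rw [Finset.mem_coe, Finset.mem_image]
    rcases Nat.lt_or_ge k (j0 + k0) with h1 | h1
    · exact ⟨k, Finset.mem_range.2 (by omega), hk⟩
    · rcases Nat.eq_zero_or_pos j with hj | hj
      · subst hj
        refine ⟨j0 + k0, Finset.mem_range.2 (by omega), ?_⟩
        simpa using hτ
      · exfalso
        apply hcon j (k - (j0 + k0)) hj
        have h2 : k = (k - (j0 + k0)) + (j0 + k0) := by omega
        rw [h2, Function.iterate_add_apply, hτ] at hk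
        exact hk
  obtain ⟨j, k, hj, hk⟩ := hlate
  -- a is periodic with period j + k
  have hper : T^[j + k] a = a := by
    rw [Function.iterate_add_apply, hk, T_pow]
  apply horb
  have hfin3 : ((Finset.range (j0 + k0 + (j + k) + 1)).image (fun k => T^[k] x) : Set ℤ).Finite :=
    Finset.finite_toSet _
  apply hfin3.subset
  rintro _ ⟨i, rfl⟩
  rw [Finset.mem_coe, Finset.mem_image]
  rcases Nat.lt_or_ge i (j0 + k0) with h1 | h1
  · exact ⟨i, Finset.mem_range.2 (by omega), rfl⟩
  · refine ⟨j0 + k0 + (i - (j0 + k0)) % (j + k), Finset.mem_range.2 ?_, ?_⟩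
    · have := Nat.mod_lt (i - (j0 + k0)) (show j + k > 0 by omega)
      omega
    · have hmul : ∀ m : ℕ, T^[m * (j + k)] a = a := by
        intro m
        induction m with
        | zero => simp
        | succ m ih => rw [Nat.succ_mul, Function.iterate_add_apply, hper, ih]
      have h2 : i = (i - (j0 + k0)) % (j + k) + ((i - (j0 + k0)) / (j + k)) * (j + k)
          + (j0 + k0) := by
        have := Nat.mod_add_div (i - (j0 + k0)) (j + k)
        rw [Nat.mul_comm] at this
        omega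
      show T^[j0 + k0 + (i - (j0 + k0)) % (j + k)] x = T^[i] x
      have e1 : T^[i] x = T^[(i - (j0 + k0)) % (j + k)] a := by
        rw [h2, Function.iterate_add_apply, hτ, Function.iterate_add_apply, hmul]
        rw [← h2]
      rw [e1, Nat.add_comm, Function.iterate_add_apply, hτ]

/-- far away nodes of the tree of `a` -/
theorem exists_root {a : ℤ} (ha5 : ¬ (5 : ℤ) ∣ a) (A0 : ℤ) :
    ∃ r : ℤ, r ∈ Desc a ∧ r % 5 = 3 ∧ NP r ∧ ∀ x ∈ Desc r, A0 ≤ |x| := by
  have ha0 : a ≠ 0 := by rintro rfl; exact ha5 (dvd_zero _)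
  have hfin : (⋃ x ∈ (insert a (Finset.Icc (-A0) A0) : Finset ℤ),
      {j : ℕ | x ∈ Desc (2 ^ j * a)}).Finite :=
    Set.Finite.biUnion (Finset.finite_toSet _) (fun x _ => hits_finite ha0 x)
  obtain ⟨B, hB⟩ := hfin.bddAbove
  have hres : ∃ i : ℕ, i < 4 ∧ (2 ^ i * a) % 5 = 3 := by
    have h1 : a % 5 ≠ 0 := fun h => ha5 (Int.dvd_of_emod_eq_zero h)
    have h2 : a % 5 = 1 ∨ a % 5 = 2 ∨ a % 5 = 3 ∨ a % 5 = 4 := by omega
    rcases h2 with h | h | h | h
    · exact ⟨3, by norm_num, by norm_num; omega⟩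
    · exact ⟨2, by norm_num, by norm_num; omega⟩
    · exact ⟨0, by norm_num, by norm_num; omega⟩
    · exact ⟨1, by norm_num, by norm_num; omega⟩
  obtain ⟨i, -, hi⟩ := hres
  obtain ⟨j, hj⟩ : ∃ j : ℕ, j = i + 4 * (B + 1) := ⟨_, rfl⟩
  have hjB : B < j := by omega
  have hjr : (2 ^ j * a) % 5 = 3 := by
    have h16 : ∀ m : ℕ, (16 : ℤ) ^ m % 5 = 1 := by
      intro m
      induction m with
      | zero => rfl
      | succ m ih => rw [pow_succ]; omega
    have h1 : (2 : ℤ) ^ j * a = 16 ^ (B + 1) * (2 ^ i * a) := by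
      rw [hj, pow_add, pow_mul]; norm_num; ring
    rw [h1, Int.mul_emod, h16, hi]
    norm_num
  have hno : ∀ x ∈ (insert a (Finset.Icc (-A0) A0) : Finset ℤ), x ∉ Desc (2 ^ j * a) := by
    intro x hx hmem
    have : j ≤ B := hB (Set.mem_biUnion (Finset.mem_coe.2 hx) hmem)
    omega
  refine ⟨2 ^ j * a, ⟨j, T_pow j a⟩, hjr, ?_, ?_⟩
  · intro p hp hper
    apply hno a (Finset.mem_insert_self _ _)
    -- iterate the period until past time j
    have hmul : ∀ m : ℕ, T^[m * p] (2 ^ j * a) = 2 ^ j * a := by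
      intro m
      induction m with
      | zero => simp
      | succ m ih => rw [Nat.succ_mul, Function.iterate_add_apply, hper, ih]
    refine ⟨j * p - j, ?_⟩
    have h1 : T^[j] (2 ^ j * a) = a := T_pow j a
    rw [← h1, ← Function.iterate_add_apply, Nat.sub_add_cancel (Nat.le_mul_of_pos_right j hp)]
    rw [h1]
    exact hmul j
  · intro x hx
    by_contra hlt
    push Not at hlt
    apply hno x _ hx
    rw [Finset.mem_insert, Finset.mem_Icc]
    right
    rw [abs_lt] at hlt
    omega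

end Pool.Agent.Helper894.Five
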